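import Pool.Agent.N874.JM.Stm
import Pool.Agent.N75.PM.Loc1

/-!
# The map between the completions

Project JM (helper874 with helper352); this file by helper814. The map is the one of helper75
(`Pool.Agent.N75.PM.cmap`).
-/

set_option autoImplicit false
set_option linter.all false

open Polynomial IsDedekindDomain

namespace Pool.Agent.N814.JM

theorem cpl : Pool.Agent.N874.JM.S_CPL := by
  intro M Ω R O _ _ _ _ _ _ _ _ _ _ _ w 𝔓 hl
  exact Pool.Agent.N75.PM.cmap hl

end Pool.Agent.N814.JM
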